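import Pool.Agent.V11277.Tower

/-!
# Not every pair of exponential-logarithmic towers has an upper bound

For a base `b ≠ 0, 1` let `EL b` be the exponential-logarithmic tower with base `b`.  We show that
there are complex numbers `a, b ∉ {0, 1}` such that no tower `EL c`, `c ∉ {0, 1}`, contains both
`EL a` and `EL b`.  In fact this holds for every `a` outside a countable set and every `b` outside a
countable set which depends on `a`.

The proof.  By the implicit function theorem there is a countable family of pairs `(U, f)` of open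
balls `U` and holomorphic functions `f` on `U` such that for all `c ≠ 0, 1` and all `z` in `EL c` there
is `(U, f)` in the family with `c ∈ U` and `f c = z`: one goes through the steps of the construction of
the tower, which solve the equations `exp y = c`, `y = exp (f c * l c)`, `exp (y * l c) = f c`,
`∑ f_j c * y ^ j = 0`, where `l` is a local branch of the logarithm (`Pool.Agent.V11277.Tower`).  If `a`
is none of the values of the constant functions of the family, then `a` lies in `EL c` only for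
countably many `c`, since the solutions of `f c = a` are isolated.  The union of these `EL c` is
countable, and every `b` outside this union has the required property.
-/

set_option autoImplicit false

namespace Pool.Agent.Results.MP_21d915_nt.NoCommonTower

open Pool.Agent.V11277 Filter Topology

/-- The fields `EL_n` with base `b`: `EL_0 = ℚ`, and `EL_(n+1)` is the set of all complex numbers which
are algebraic over the field generated by `EL_n`, by the powers `b ^ x = exp (x * ln b)` with `x` in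
`EL_n` and by the logarithms to the base `b` of the elements of `EL_n`, that is the numbers `w` such
that `b ^ w = exp (w * ln b)` is in `EL_n`. Here `ln b` is the principal value. -/
def ELn (b : ℂ) : ℕ → Set ℂ
  | 0 => Set.range ((↑) : ℚ → ℂ)
  | n + 1 => {z | IsAlgebraic (IntermediateField.adjoin ℚ (ELn b n ∪
      (fun x => Complex.exp (x * Complex.log b)) '' ELn b n ∪
      {w | Complex.exp (w * Complex.log b) ∈ ELn b n})) z}

/-- The exponential-logarithmic tower with base `b`. -/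
def EL (b : ℂ) : Set ℂ := ⋃ n, ELn b n

/-- The generators of the field `EL_(n+1)`. -/
def Gen (b : ℂ) (n : ℕ) : Set ℂ := ELn b n ∪
      (fun x => Complex.exp (x * Complex.log b)) '' ELn b n ∪
      {w | Complex.exp (w * Complex.log b) ∈ ELn b n}

theorem mem_succ {b z : ℂ} {n : ℕ} :
    z ∈ ELn b (n + 1) ↔ IsAlgebraic (IntermediateField.adjoin ℚ (Gen b n)) z := Iff.rfl

theorem cap_ELn (n : ℕ) : Cap {q : ℂ × ℂ | q.1 ∈ ({c | c ≠ 0 ∧ c ≠ 1} : Set ℂ) ∧ q.2 ∈ ELn q.1 n} := by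
  induction n with
  | zero =>
    refine ⟨Set.range (fun r : ℚ => (Set.univ, fun _ => (r : ℂ))), Set.countable_range _, ?_, ?_⟩
    · rintro p ⟨r, rfl⟩
      exact ⟨isOpen_univ, differentiableOn_const _⟩
    · rintro q ⟨-, r, hr⟩
      exact ⟨_, ⟨r, rfl⟩, Set.mem_univ _, hr⟩
  | succ n ih =>
    have h1 : Cap {q : ℂ × ℂ | q.1 ∈ ({c | c ≠ 0 ∧ c ≠ 1} : Set ℂ) ∧ q.2 ∈ Gen q.1 n} := by
      refine ((ih.union (cap_pow ih)).union (cap_Log ih)).mono ?_
      rintro q ⟨hq, ((h | ⟨x, hx, h⟩) | h)⟩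
      · exact Or.inl (Or.inl ⟨hq, h⟩)
      · exact Or.inl (Or.inr ⟨hq.1, x, ⟨hq, hx⟩, h⟩)
      · exact Or.inr ⟨hq.1, hq.2, hq, h⟩
    have h2 := cap_adjoin (D := {c | c ≠ 0 ∧ c ≠ 1}) (T := fun c => Gen c n) h1
    have h3 := cap_algebraic (D := {c | c ≠ 0 ∧ c ≠ 1})
      (K := fun c => IntermediateField.adjoin ℚ (Gen c n)) h2
    simp only [mem_succ]
    exact h3

theorem cap_EL : Cap {q : ℂ × ℂ | q.1 ≠ 0 ∧ q.1 ≠ 1 ∧ q.2 ∈ EL q.1} := by
  refine (Cap.iUnion cap_ELn).mono ?_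
  rintro q ⟨h0, h1, h⟩
  obtain ⟨n, hn⟩ := Set.mem_iUnion.1 h
  exact Set.mem_iUnion.2 ⟨n, ⟨h0, h1⟩, hn⟩

theorem self_mem {b : ℂ} (hb : b ≠ 0) : b ∈ EL b := by
  refine Set.mem_iUnion.2 ⟨1, ?_⟩
  rw [mem_succ]
  have h1 : b ∈ IntermediateField.adjoin ℚ (Gen b 0) := by
    refine IntermediateField.subset_adjoin ℚ _ (Or.inl (Or.inr ⟨1, ⟨1, by simp⟩, ?_⟩))
    simp [Complex.exp_log hb]
  exact isAlgebraic_algebraMap (⟨b, h1⟩ : IntermediateField.adjoin ℚ (Gen b 0))

/-- a holomorphic function on a preconnected open set is constant or its fibres are countable -/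
theorem countable_fibre {U : Set ℂ} (hU : IsOpen U) (hUc : IsPreconnected U) {f : ℂ → ℂ}
    (hf : DifferentiableOn ℂ f U) (a : ℂ) : (∀ c ∈ U, f c = a) ∨ {c ∈ U | f c = a}.Countable := by
  have han : AnalyticOnNhd ℂ (fun c => f c - a) U := fun c hc =>
    ((hf.analyticAt (hU.mem_nhds hc)).sub analyticAt_const)
  rcases han.eqOn_zero_or_eventually_ne_zero_of_preconnected hUc with h | h
  · left
    intro c hc
    exact sub_eq_zero.1 (h hc)
  · right
    set Z : Set ℂ := {c ∈ U | f c = a} with hZ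
    have hdisc : DiscreteTopology Z := by
      rw [discreteTopology_subtype_iff]
      rintro c ⟨hcU, hca⟩
      rw [← disjoint_iff]
      rw [Filter.Eventually, mem_codiscreteWithin] at h
      have h1 := h c hcU
      rw [disjoint_principal_right] at h1 ⊢
      refine mem_of_superset h1 ?_
      intro x hx hxZ
      exact hx ⟨hxZ.1, fun h => h (sub_eq_zero.2 hxZ.2)⟩
    exact Set.countable_coe_iff.1 (countable_of_Lindelof_of_discrete (X := Z))

theorem generic : ∃ Z : Set ℂ, Z.Countable ∧ ∀ a ∉ Z, ∃ Y : Set ℂ, Y.Countable ∧ ∀ b ∉ Y,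
    ∀ c : ℂ, c ≠ 0 → c ≠ 1 → a ∈ EL c → b ∈ EL c → False := by
  classical
  obtain ⟨F, F1, F2, F3⟩ := cap_EL
  set 𝓑 := TopologicalSpace.countableBasis ℂ with h𝓑
  obtain ⟨F', F1', F2', F3'⟩ : ∃ F : Set (Set ℂ × (ℂ → ℂ)), F.Countable ∧
    (∀ p ∈ F, IsOpen p.1 ∧ IsPreconnected p.1 ∧ DifferentiableOn ℂ p.2 p.1) ∧
    ∀ q ∈ {q : ℂ × ℂ | q.1 ≠ 0 ∧ q.1 ≠ 1 ∧ q.2 ∈ EL q.1}, ∃ p ∈ F, q.1 ∈ p.1 ∧ p.2 q.1 = q.2 := by
    have := F1.to_subtype
    let g : (F × ℚ × ℚ × ℚ) → Set ℂ × (ℂ → ℂ) := fun p =>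
      (Metric.ball (⟨p.2.1, p.2.2.1⟩ : ℂ) (p.2.2.2 : ℝ), p.1.1.2)
    refine ⟨Set.range g ∩ {p | DifferentiableOn ℂ p.2 p.1},
      (Set.countable_range g).mono Set.inter_subset_left, ?_, ?_⟩
    · rintro p ⟨⟨i, rfl⟩, hp⟩
      exact ⟨Metric.isOpen_ball, (convex_ball _ _).isPreconnected, hp⟩
    · intro q hq
      obtain ⟨p, hp, hqp, hpq⟩ := F3 q hq
      obtain ⟨ε, hε, hball⟩ := Metric.isOpen_iff.1 (F2 p hp).1 q.1 hqp
      obtain ⟨r, hr0, hr⟩ := exists_rat_btwn (half_pos hε)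
      have hr0' : (0 : ℝ) < r := hr0
      obtain ⟨x, hx1, hx2⟩ := exists_rat_btwn (show q.1.re - r / 2 < q.1.re by linarith)
      obtain ⟨y, hy1, hy2⟩ := exists_rat_btwn (show q.1.im - r / 2 < q.1.im by linarith)
      have hd : dist q.1 (⟨x, y⟩ : ℂ) < r := by
        rw [Complex.dist_eq]
        refine (Complex.norm_le_abs_re_add_abs_im _).trans_lt ?_
        simp only [Complex.sub_re, Complex.sub_im]
        rw [abs_of_pos (by linarith), abs_of_pos (by linarith)]
        linarith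
      refine ⟨g (⟨p, hp⟩, x, y, r), ⟨⟨_, rfl⟩, ?_⟩, ?_, hpq⟩
      · refine (F2 p hp).2.mono ?_
        refine subset_trans ?_ hball
        intro z hz
        have hz' : dist z (⟨x, y⟩ : ℂ) < r := hz
        rw [Metric.mem_ball]
        calc dist z q.1 ≤ dist z (⟨x, y⟩ : ℂ) + dist (⟨x, y⟩ : ℂ) q.1 := dist_triangle _ _ _
          _ < r + r := add_lt_add hz' (by rwa [dist_comm])
          _ < ε := by linarith
      · exact hd
  -- the values of the constant functions
  let v : Set ℂ × (ℂ → ℂ) → Set ℂ := fun p =>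
    {a | p.1.Nonempty ∧ ∀ c ∈ p.1, p.2 c = a}
  have hv : ∀ p, (v p).Countable := by
    intro p
    refine Set.Subsingleton.countable ?_
    rintro a ⟨⟨c, hc⟩, ha⟩ a' ⟨-, ha'⟩
    rw [← ha c hc, ← ha' c hc]
  refine ⟨⋃ p ∈ F', v p, F1'.biUnion fun p _ => hv p, ?_⟩
  intro a ha
  have hC : {c : ℂ | c ≠ 0 ∧ c ≠ 1 ∧ a ∈ EL c}.Countable := by
    refine (F1'.biUnion (t := fun p _ => {c ∈ p.1 | p.2 c = a}) ?_).mono ?_
    · intro p hp
      rcases countable_fibre (F2' p hp).1 (F2' p hp).2.1 (F2' p hp).2.2 a with h | h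
      · by_cases hne : p.1.Nonempty
        · exact absurd (Set.mem_biUnion hp (show a ∈ v p from ⟨hne, h⟩)) ha
        · rw [Set.not_nonempty_iff_eq_empty] at hne
          simp [hne]
      · exact h
    · intro c hc
      obtain ⟨p, hp, h1, h2⟩ := F3' (c, a) hc
      exact Set.mem_biUnion hp ⟨h1, h2⟩
  refine ⟨⋃ c ∈ {c : ℂ | c ≠ 0 ∧ c ≠ 1 ∧ a ∈ EL c}, EL c, hC.biUnion ?_, ?_⟩
  · rintro c ⟨hc0, hc1, -⟩
    refine (F1'.image (fun p => p.2 c)).mono ?_
    intro z hz
    obtain ⟨p, hp, h1, h2⟩ := F3' (c, z) ⟨hc0, hc1, hz⟩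
    exact ⟨p, hp, h2⟩
  · intro b hb c hc0 hc1 hac hbc
    exact hb (Set.mem_biUnion (show c ∈ {c : ℂ | c ≠ 0 ∧ c ≠ 1 ∧ a ∈ EL c} from ⟨hc0, hc1, hac⟩) hbc)

/-- **Main result.** Two exponential-logarithmic towers need not have an upper bound among the
towers. -/
theorem result : ¬ ∀ a b : ℂ, a ≠ 0 → a ≠ 1 → b ≠ 0 → b ≠ 1 →
    ∃ c : ℂ, c ≠ 0 ∧ c ≠ 1 ∧ EL a ⊆ EL c ∧ EL b ⊆ EL c := by
  intro h
  obtain ⟨Z, hZ, hZ'⟩ := generic
  have hunc : ¬ (Set.univ : Set ℂ).Countable := not_countable_complex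
  obtain ⟨a, ha⟩ : ∃ a, a ∉ Z ∪ {0, 1} := by
    by_contra hcon
    push Not at hcon
    exact hunc ((hZ.union (Set.countable_insert.2 (Set.countable_singleton 1))).mono
      fun x _ => hcon x)
  obtain ⟨Y, hY, hY'⟩ := hZ' a fun h => ha (Or.inl h)
  obtain ⟨b, hb⟩ : ∃ b, b ∉ Y ∪ {0, 1} := by
    by_contra hcon
    push Not at hcon
    exact hunc ((hY.union (Set.countable_insert.2 (Set.countable_singleton 1))).mono
      fun x _ => hcon x)
  have ha0 : a ≠ 0 := fun h => ha (Or.inr (by simp [h]))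
  have ha1 : a ≠ 1 := fun h => ha (Or.inr (by simp [h]))
  have hb0 : b ≠ 0 := fun h => hb (Or.inr (by simp [h]))
  have hb1 : b ≠ 1 := fun h => hb (Or.inr (by simp [h]))
  obtain ⟨c, hc0, hc1, hac, hbc⟩ := h a b ha0 ha1 hb0 hb1
  exact hY' b (fun h => hb (Or.inl h)) c hc0 hc1 (hac (self_mem ha0)) (hbc (self_mem hb0))

end Pool.Agent.Results.MP_21d915_nt.NoCommonTower
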